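import Pool.Agent.L0h64.MX.Stm

set_option autoImplicit false

/-! # Symmetric and skew-symmetric matrices: the commutator with the basis -/

namespace Pool.Agent.L0h29.MX

open Pool.Agent.W650 Pool.Agent.N672.HR Pool.Agent.L0h64.HM Pool.Agent.L0h64.MX Matrix

universe v

theorem key_A {N : ℕ} (G : Matrix (Fin N) (Fin N) ℂ) (hG : G * Gᴴ = 1) (α : ℕ → ℝ) (l : ℕ)
    (hl : l < N) (p : ℕ) :
    ∑ q ∈ Finset.range N, (∑ k ∈ Finset.range N, (α k : ℂ) *
      (ent G k p * starRingEnd ℂ (ent G k q))) * ent G l q = (α l : ℂ) * ent G l p := by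
  have e4 : ∀ q ∈ Finset.range N, (∑ k ∈ Finset.range N, (α k : ℂ) *
      (ent G k p * starRingEnd ℂ (ent G k q))) * ent G l q =
      ∑ k ∈ Finset.range N, (α k : ℂ) * ent G k p *
        (starRingEnd ℂ (ent G k q) * ent G l q) := by
    intro q _
    rw [Finset.sum_mul]
    exact Finset.sum_congr rfl fun k _ => by ring
  rw [Finset.sum_congr rfl e4, Finset.sum_comm]
  have e5 : ∀ k ∈ Finset.range N, ∑ q ∈ Finset.range N, (α k : ℂ) * ent G k p *
        (starRingEnd ℂ (ent G k q) * ent G l q) =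
      if k = l then (α l : ℂ) * ent G l p else 0 := by
    intro k hk
    rw [← Finset.mul_sum, ent_orth G hG k (Finset.mem_range.1 hk) l hl]
    split_ifs with hkl
    · rw [hkl, mul_one]
    · rw [mul_zero]
  rw [Finset.sum_congr rfl e5, Finset.sum_ite_eq', if_pos (Finset.mem_range.2 hl)]

/-- combinations of the variables as double sums -/
theorem uu_sum (hP : PRS_stm.{v}) {N m : ℕ} {τ : ℤ} {ix : ℕ → ℕ → ℕ} {ρ κ : ℕ → ℕ}
    (h : SEnum N m τ ix ρ κ) (σ : ℕ → ℕ) (G : Matrix (Fin N) (Fin N) ℂ) (k : ℕ)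
    (V : Type v) [AddCommGroup V] [Module ℂ V] (Y : ℕ → V) :
    ∑ j ∈ Finset.range m, uu τ ρ κ σ G k j • Y j =
      ((wt (ρ (σ k)) (κ (σ k)) : ℝ) : ℂ) • ∑ b ∈ Finset.range N, ∑ d ∈ Finset.range N,
        (ent G (ρ (σ k)) b * ent G (κ (σ k)) d) • ((sg τ b d : ℝ) : ℂ) • Y (ix b d) := by
  rw [hP N m τ ix ρ κ h V (fun b d => (ent G (ρ (σ k)) b * ent G (κ (σ k)) d) •
    ((sg τ b d : ℝ) : ℂ) • Y (ix b d)) (by
      intro hτ b _
      have h1 : sg τ b b = 0 := sg_zero h.tau b b (by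
        intro h2
        have h3 := h2 rfl
        rw [hτ] at h3
        norm_num at h3)
      rw [h1, Complex.ofReal_zero, zero_smul, smul_zero]), Finset.smul_sum]
  refine Finset.sum_congr rfl fun j hj => ?_
  have hj' := Finset.mem_range.1 hj
  have e1 : ix (ρ j) (κ j) = j := h.eq j hj'
  have e2 : ix (κ j) (ρ j) = j := by rw [h.symm, e1]
  by_cases hd : ρ j = κ j
  · have hτ := h.diag j hj' hd
    subst hτ
    rw [if_pos hd, add_zero, e1, smul_smul, smul_smul]
    congr 1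
    unfold uu
    rw [← hd]
    have h1 : wt (ρ j) (ρ j) = 1 / Real.sqrt 2 := by
      unfold wt
      rw [if_pos rfl]
    have h2 : sg 1 (ρ j) (ρ j) = Real.sqrt 2 := by
      unfold sg
      rw [if_pos rfl]
      norm_num
    have h3 : Real.sqrt 2 * Real.sqrt 2 = 2 := Real.mul_self_sqrt (by norm_num)
    have h4 : (1 / Real.sqrt 2) * 2 = Real.sqrt 2 := by
      have h5 : Real.sqrt 2 ≠ 0 := by positivity
      field_simp
      nlinarith
    have h4' : ((1 / Real.sqrt 2 : ℝ) : ℂ) * 2 = ((Real.sqrt 2 : ℝ) : ℂ) := by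
      have h5 := congrArg (fun x : ℝ => (x : ℂ)) h4
      simp only [Complex.ofReal_mul, Complex.ofReal_ofNat] at h5
      exact h5
    rw [h1, h2, ← h4', Complex.ofReal_mul, Int.cast_one]
    generalize ((1 / Real.sqrt 2 : ℝ) : ℂ) = s
    ring
  · have hlt : ρ j < κ j := lt_of_le_of_ne (h.le j hj') hd
    rw [if_neg hd, e1, e2]
    have h1 : wt (ρ j) (κ j) = 1 := by
      unfold wt
      rw [if_neg hd]
    have h2 : sg τ (ρ j) (κ j) = 1 := by
      unfold sg
      rw [if_neg hd, if_pos hlt]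
    have h3 : sg τ (κ j) (ρ j) = τ := by
      unfold sg
      rw [if_neg (Ne.symm hd), if_neg (not_lt.2 hlt.le)]
    rw [h2, h3, smul_smul, smul_smul, ← add_smul, smul_smul]
    congr 1
    unfold uu
    rw [h1, mul_one]
    push_cast
    ring

/-- the double sum as an operator -/
noncomputable def WW {M : Type v} [NormedAddCommGroup M] [InnerProductSpace ℂ M] {N : ℕ}
    (τ : ℤ) (ix : ℕ → ℕ → ℕ) (G : Matrix (Fin N) (Fin N) ℂ) (X : ℕ → M →ₗ[ℂ] M) (a c : ℕ) :
    M →ₗ[ℂ] M :=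
  ∑ b ∈ Finset.range N, ∑ d ∈ Finset.range N,
    (ent G a b * ent G c d) • ((sg τ b d : ℝ) : ℂ) • X (ix b d)

theorem WW_apply {M : Type v} [NormedAddCommGroup M] [InnerProductSpace ℂ M] {N : ℕ}
    (τ : ℤ) (ix : ℕ → ℕ → ℕ) (G : Matrix (Fin N) (Fin N) ℂ) (X : ℕ → M →ₗ[ℂ] M) (a c : ℕ)
    (y : M) : WW τ ix G X a c y = ∑ b ∈ Finset.range N, ∑ d ∈ Finset.range N,
      (ent G a b * ent G c d) • ((sg τ b d : ℝ) : ℂ) • X (ix b d) y := by
  unfold WW
  simp only [LinearMap.sum_apply, LinearMap.smul_apply]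

theorem E_WW {M : Type v} [NormedAddCommGroup M] [InnerProductSpace ℂ M] {N : ℕ}
    {τ : ℤ} {ix : ℕ → ℕ → ℕ} {X : ℕ → M →ₗ[ℂ] M} {E : ℕ → ℕ → M →ₗ[ℂ] M}
    (hE : SymRow N τ ix X E) (G : Matrix (Fin N) (Fin N) ℂ) (a c : ℕ) (p q : ℕ)
    (hp : p ∈ Finset.range N) (hq : q ∈ Finset.range N) (x : M) :
    E p q (WW τ ix G X a c x) = WW τ ix G X a c (E p q x) +
      ((∑ d ∈ Finset.range N, (ent G a q * ent G c d) • ((sg τ p d : ℝ) : ℂ) • X (ix p d) x) +
      ∑ b ∈ Finset.range N, (ent G a b * ent G c q) • ((sg τ b p : ℝ) : ℂ) • X (ix b p) x) := by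
  have hp' := Finset.mem_range.1 hp
  have hq' := Finset.mem_range.1 hq
  rw [WW_apply, WW_apply, map_sum]
  simp only [map_sum, map_smul]
  have e1 : ∀ b ∈ Finset.range N, ∑ d ∈ Finset.range N,
      (ent G a b * ent G c d) • ((sg τ b d : ℝ) : ℂ) • E p q (X (ix b d) x) =
      (∑ d ∈ Finset.range N,
        (ent G a b * ent G c d) • ((sg τ b d : ℝ) : ℂ) • X (ix b d) (E p q x)) +
      ((if q = b then ∑ d ∈ Finset.range N,
        (ent G a q * ent G c d) • ((sg τ p d : ℝ) : ℂ) • X (ix p d) x else 0) +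
      (ent G a b * ent G c q) • ((sg τ b p : ℝ) : ℂ) • X (ix b p) x) := by
    intro b hb
    have hb' := Finset.mem_range.1 hb
    have e2 : ∀ d ∈ Finset.range N,
        (ent G a b * ent G c d) • ((sg τ b d : ℝ) : ℂ) • E p q (X (ix b d) x) =
        (ent G a b * ent G c d) • ((sg τ b d : ℝ) : ℂ) • X (ix b d) (E p q x) +
        ((if q = b then (ent G a q * ent G c d) • ((sg τ p d : ℝ) : ℂ) • X (ix p d) x else 0) +
        (if q = d then (ent G a b * ent G c q) • ((sg τ b p : ℝ) : ℂ) • X (ix b p) x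
          else 0)) := by
      intro d hd
      have hd' := Finset.mem_range.1 hd
      have h1 := hE.comm p hp' q hq' b hb' d hd' x
      rw [map_smul] at h1
      rw [h1, smul_add, smul_add, add_assoc]
      congr 1
      congr 1
      · split_ifs with h2
        · rw [h2]
        · rw [smul_zero]
      · split_ifs with h2
        · rw [h2]
        · rw [smul_zero]
    rw [Finset.sum_congr rfl e2, Finset.sum_add_distrib, Finset.sum_add_distrib,
      Finset.sum_ite_eq, if_pos hq]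
    congr 2
    split_ifs with h2
    · rfl
    · exact Finset.sum_const_zero
  rw [Finset.sum_congr rfl e1, Finset.sum_add_distrib, Finset.sum_add_distrib,
    Finset.sum_ite_eq, if_pos hq]

theorem WW_comm {M : Type v} [NormedAddCommGroup M] [InnerProductSpace ℂ M] {N : ℕ}
    {τ : ℤ} {ix : ℕ → ℕ → ℕ} {X : ℕ → M →ₗ[ℂ] M} {E : ℕ → ℕ → M →ₗ[ℂ] M}
    (hE : SymRow N τ ix X E) (G : Matrix (Fin N) (Fin N) ℂ) (hG : G * Gᴴ = 1) (α : ℕ → ℝ)
    (a c : ℕ) (ha : a < N) (hc : c < N) (x : M) :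
    Ph G α E (WW τ ix G X a c x) = WW τ ix G X a c (Ph G α E x) +
      ((α a + α c : ℝ) : ℂ) • WW τ ix G X a c x := by
  obtain ⟨A, hA⟩ : ∃ A : ℕ → ℕ → ℂ, A = fun p q =>
    ∑ k ∈ Finset.range N, (α k : ℂ) * (ent G k p * starRingEnd ℂ (ent G k q)) := ⟨_, rfl⟩
  have hPh : ∀ y : M, Ph G α E y = ∑ p ∈ Finset.range N, ∑ q ∈ Finset.range N,
      A p q • E p q y := by
    intro y
    unfold Ph
    rw [hA]
    simp only [LinearMap.sum_apply, LinearMap.smul_apply]
  have hAl : ∀ l < N, ∀ p, ∑ q ∈ Finset.range N, A p q * ent G l q = (α l : ℂ) * ent G l p := by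
    intro l hl p
    rw [hA]
    exact key_A G hG α l hl p
  have e1 : WW τ ix G X a c (Ph G α E x) = ∑ p ∈ Finset.range N, ∑ q ∈ Finset.range N,
      A p q • WW τ ix G X a c (E p q x) := by
    rw [hPh]
    simp only [map_sum, map_smul]
  have e2 : Ph G α E (WW τ ix G X a c x) = (∑ p ∈ Finset.range N, ∑ q ∈ Finset.range N,
      A p q • WW τ ix G X a c (E p q x)) +
      ((∑ p ∈ Finset.range N, ∑ q ∈ Finset.range N, A p q • ∑ d ∈ Finset.range N,
        (ent G a q * ent G c d) • ((sg τ p d : ℝ) : ℂ) • X (ix p d) x) +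
      ∑ p ∈ Finset.range N, ∑ q ∈ Finset.range N, A p q • ∑ b ∈ Finset.range N,
        (ent G a b * ent G c q) • ((sg τ b p : ℝ) : ℂ) • X (ix b p) x) := by
    rw [hPh, ← Finset.sum_add_distrib, ← Finset.sum_add_distrib]
    refine Finset.sum_congr rfl fun p hp => ?_
    rw [← Finset.sum_add_distrib, ← Finset.sum_add_distrib]
    refine Finset.sum_congr rfl fun q hq => ?_
    rw [E_WW hE G a c p q hp hq x, smul_add, smul_add]
  have e3 : (∑ p ∈ Finset.range N, ∑ q ∈ Finset.range N, A p q • ∑ d ∈ Finset.range N,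
        (ent G a q * ent G c d) • ((sg τ p d : ℝ) : ℂ) • X (ix p d) x) =
      (α a : ℂ) • WW τ ix G X a c x := by
    rw [WW_apply, Finset.smul_sum]
    refine Finset.sum_congr rfl fun p _ => ?_
    simp only [Finset.smul_sum]
    rw [Finset.sum_comm]
    refine Finset.sum_congr rfl fun d _ => ?_
    simp only [smul_smul]
    rw [← Finset.sum_smul]
    congr 1
    calc ∑ q ∈ Finset.range N, A p q * (ent G a q * ent G c d * ((sg τ p d : ℝ) : ℂ)) =
        (∑ q ∈ Finset.range N, A p q * ent G a q) * (ent G c d * ((sg τ p d : ℝ) : ℂ)) := by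
          rw [Finset.sum_mul]
          exact Finset.sum_congr rfl fun q _ => by ring
      _ = _ := by
          rw [hAl a ha p]
          ring
  have e4 : (∑ p ∈ Finset.range N, ∑ q ∈ Finset.range N, A p q • ∑ b ∈ Finset.range N,
        (ent G a b * ent G c q) • ((sg τ b p : ℝ) : ℂ) • X (ix b p) x) =
      (α c : ℂ) • WW τ ix G X a c x := by
    rw [WW_apply, Finset.sum_comm (s := Finset.range N) (t := Finset.range N)
      (f := fun b d => (ent G a b * ent G c d) • ((sg τ b d : ℝ) : ℂ) • X (ix b d) x),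
      Finset.smul_sum]
    refine Finset.sum_congr rfl fun p _ => ?_
    simp only [Finset.smul_sum]
    rw [Finset.sum_comm]
    refine Finset.sum_congr rfl fun b _ => ?_
    simp only [smul_smul]
    rw [← Finset.sum_smul]
    congr 1
    calc ∑ q ∈ Finset.range N, A p q * (ent G a b * ent G c q * ((sg τ b p : ℝ) : ℂ)) =
        (∑ q ∈ Finset.range N, A p q * ent G c q) * (ent G a b * ((sg τ b p : ℝ) : ℂ)) := by
          rw [Finset.sum_mul]
          exact Finset.sum_congr rfl fun q _ => by ring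
      _ = _ := by
          rw [hAl c hc p]
          ring
  rw [e2, e1, e3, e4, ← add_smul, ← Complex.ofReal_add]

theorem t_phc (hP : PRS_stm.{v}) : PHC_stm.{v} := by
  intro N m τ ix ρ κ h M _ _ X E hE i J σ G α hG hσ k hk x
  have hσk := hσ.lt k hk
  have hc : κ (σ k) < N := h.col_lt _ hσk
  have ha : ρ (σ k) < N := lt_of_le_of_lt (h.le _ hσk) hc
  have hsum : ∀ y : M, (∑ j ∈ Finset.range m, uu τ ρ κ σ G k j • X j) y =
      ((wt (ρ (σ k)) (κ (σ k)) : ℝ) : ℂ) • WW τ ix G X (ρ (σ k)) (κ (σ k)) y := by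
    intro y
    rw [LinearMap.sum_apply, WW_apply]
    simp only [LinearMap.smul_apply]
    exact uu_sum hP h σ G k M (fun j => X j y)
  rw [hsum x, hsum (Ph G α E x), map_smul, WW_comm hE G hG α _ _ ha hc x, smul_add,
    smul_comm ((wt (ρ (σ k)) (κ (σ k)) : ℝ) : ℂ)]

end Pool.Agent.L0h29.MX
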